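import Pool.Agent.Helper10.SP.GoalsA

/-!
# Packet SP DDQ: the second derivative of `q`
-/

open Complex Metric Set Filter Topology
open scoped ContDiff ComplexConjugate ComplexOrder Manifold Matrix

namespace Pool.Agent.Helper29.SP

open Pool.Agent.Helper95.Lin Pool.Agent.Helper10.SP

variable {n : ℕ}

/-! ### Pointwise calculus of the two derivations -/

theorem cd_congr {W : Set (Cn n)} (hW : IsOpen W) {f g : Cn n → ℂ} (h : ∀ y ∈ W, f y = g y)
    {x : Cn n} (hx : x ∈ W) (l : Fin n) : cd l f x = cd l g x := by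
  have h1 : f =ᶠ[𝓝 x] g := by
    filter_upwards [hW.mem_nhds hx] with y hy using h y hy
  unfold cd
  rw [h1.fderiv_eq]

theorem cdb_congr {W : Set (Cn n)} (hW : IsOpen W) {f g : Cn n → ℂ} (h : ∀ y ∈ W, f y = g y)
    {x : Cn n} (hx : x ∈ W) (l : Fin n) : cdb l f x = cdb l g x := by
  have h1 : f =ᶠ[𝓝 x] g := by
    filter_upwards [hW.mem_nhds hx] with y hy using h y hy
  unfold cdb
  rw [h1.fderiv_eq]

theorem Dv_congr {W : Set (Cn n)} (hW : IsOpen W) {f g : Cn n → ℂ} (h : ∀ y ∈ W, f y = g y)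
    {x : Cn n} (hx : x ∈ W) (v : Cn n → Cn n) : Dv v f x = Dv v g x := by
  unfold Dv
  exact Finset.sum_congr rfl fun j _ => by rw [cd_congr hW h hx]

theorem Dvb_congr {W : Set (Cn n)} (hW : IsOpen W) {f g : Cn n → ℂ} (h : ∀ y ∈ W, f y = g y)
    {x : Cn n} (hx : x ∈ W) (v : Cn n → Cn n) : Dvb v f x = Dvb v g x := by
  unfold Dvb
  exact Finset.sum_congr rfl fun j _ => by rw [cdb_congr hW h hx]

theorem Dv_zero (v : Cn n → Cn n) (x : Cn n) : Dv v (fun _ => (0 : ℂ)) x = 0 := by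
  unfold Dv cd
  simp

theorem Dvb_zero (v : Cn n → Cn n) (x : Cn n) : Dvb v (fun _ => (0 : ℂ)) x = 0 := by
  unfold Dvb cdb
  simp

theorem Dv_add (hWIRT : S_WIRT) {W : Set (Cn n)} (hW : IsOpen W) (v : Cn n → Cn n)
    {f g : Cn n → ℂ} (hf : ContDiffOn ℝ ∞ f W) (hg : ContDiffOn ℝ ∞ g W) {x : Cn n}
    (hx : x ∈ W) : Dv v (fun y => f y + g y) x = Dv v f x + Dv v g x := by
  obtain ⟨_, h2, _⟩ := hWIRT W hW f g hf hg
  unfold Dv
  rw [← Finset.sum_add_distrib]
  exact Finset.sum_congr rfl fun j _ => by rw [(h2 j x hx).1, mul_add]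

theorem Dvb_add (hWIRT : S_WIRT) {W : Set (Cn n)} (hW : IsOpen W) (v : Cn n → Cn n)
    {f g : Cn n → ℂ} (hf : ContDiffOn ℝ ∞ f W) (hg : ContDiffOn ℝ ∞ g W) {x : Cn n}
    (hx : x ∈ W) : Dvb v (fun y => f y + g y) x = Dvb v f x + Dvb v g x := by
  obtain ⟨_, h2, _⟩ := hWIRT W hW f g hf hg
  unfold Dvb
  rw [← Finset.sum_add_distrib]
  exact Finset.sum_congr rfl fun j _ => by rw [(h2 j x hx).2, mul_add]

theorem Dv_mul (hWIRT : S_WIRT) {W : Set (Cn n)} (hW : IsOpen W) (v : Cn n → Cn n)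
    {f g : Cn n → ℂ} (hf : ContDiffOn ℝ ∞ f W) (hg : ContDiffOn ℝ ∞ g W) {x : Cn n}
    (hx : x ∈ W) : Dv v (fun y => f y * g y) x = Dv v f x * g x + f x * Dv v g x := by
  obtain ⟨_, _, h3, _⟩ := hWIRT W hW f g hf hg
  unfold Dv
  rw [Finset.sum_mul, Finset.mul_sum, ← Finset.sum_add_distrib]
  exact Finset.sum_congr rfl fun j _ => by rw [(h3 j x hx).1]; ring

theorem Dvb_mul (hWIRT : S_WIRT) {W : Set (Cn n)} (hW : IsOpen W) (v : Cn n → Cn n)
    {f g : Cn n → ℂ} (hf : ContDiffOn ℝ ∞ f W) (hg : ContDiffOn ℝ ∞ g W) {x : Cn n}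
    (hx : x ∈ W) : Dvb v (fun y => f y * g y) x = Dvb v f x * g x + f x * Dvb v g x := by
  obtain ⟨_, _, h3, _⟩ := hWIRT W hW f g hf hg
  unfold Dvb
  rw [Finset.sum_mul, Finset.mul_sum, ← Finset.sum_add_distrib]
  exact Finset.sum_congr rfl fun j _ => by rw [(h3 j x hx).2]; ring

theorem Dv_conj (hWIRT : S_WIRT) {W : Set (Cn n)} (hW : IsOpen W) (v : Cn n → Cn n)
    {f : Cn n → ℂ} (hf : ContDiffOn ℝ ∞ f W) {x : Cn n}
    (hx : x ∈ W) : Dv v (fun y => conj (f y)) x = conj (Dvb v f x) := by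
  obtain ⟨_, _, _, h4, _⟩ := hWIRT W hW f f hf hf
  unfold Dv Dvb
  rw [map_sum]
  exact Finset.sum_congr rfl fun j _ => by rw [(h4 j x hx).1, map_mul, Complex.conj_conj]

theorem Dvb_conj (hWIRT : S_WIRT) {W : Set (Cn n)} (hW : IsOpen W) (v : Cn n → Cn n)
    {f : Cn n → ℂ} (hf : ContDiffOn ℝ ∞ f W) {x : Cn n}
    (hx : x ∈ W) : Dvb v (fun y => conj (f y)) x = conj (Dv v f x) := by
  obtain ⟨_, _, _, h4, _⟩ := hWIRT W hW f f hf hf
  unfold Dv Dvb
  rw [map_sum]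
  exact Finset.sum_congr rfl fun j _ => by rw [(h4 j x hx).2, map_mul]

theorem contDiffOn_conj {W : Set (Cn n)} {f : Cn n → ℂ} (hf : ContDiffOn ℝ ∞ f W) :
    ContDiffOn ℝ ∞ (fun y => conj (f y)) W := by
  have h1 : ContDiff ℝ ∞ (fun z : ℂ => conj z) := Complex.conjCLE.contDiff
  exact h1.comp_contDiffOn hf

theorem Dv_sum (hWIRT : S_WIRT) {W : Set (Cn n)} (hW : IsOpen W) (v : Cn n → Cn n)
    {ι : Type} (s : Finset ι) {f : ι → Cn n → ℂ} (hf : ∀ m, ContDiffOn ℝ ∞ (f m) W)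
    {x : Cn n} (hx : x ∈ W) : Dv v (fun y => ∑ m ∈ s, f m y) x = ∑ m ∈ s, Dv v (f m) x := by
  classical
  induction s using Finset.induction_on with
  | empty => simp [Dv_zero]
  | insert a s ha ih =>
    simp only [Finset.sum_insert ha]
    rw [Dv_add hWIRT hW v (hf a) (ContDiffOn.sum fun m _ => hf m) hx, ih]

theorem Dvb_sum (hWIRT : S_WIRT) {W : Set (Cn n)} (hW : IsOpen W) (v : Cn n → Cn n)
    {ι : Type} (s : Finset ι) {f : ι → Cn n → ℂ} (hf : ∀ m, ContDiffOn ℝ ∞ (f m) W)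
    {x : Cn n} (hx : x ∈ W) : Dvb v (fun y => ∑ m ∈ s, f m y) x = ∑ m ∈ s, Dvb v (f m) x := by
  classical
  induction s using Finset.induction_on with
  | empty => simp [Dvb_zero]
  | insert a s ha ih =>
    simp only [Finset.sum_insert ha]
    rw [Dvb_add hWIRT hW v (hf a) (ContDiffOn.sum fun m _ => hf m) hx, ih]

/-! ### Matrix-valued functions -/

/-- Smooth entries. -/
def SM (W : Set (Cn n)) (X : Cn n → Matrix (Fin n) (Fin n) ℂ) : Prop :=
  ∀ j l, ContDiffOn ℝ ∞ (fun y => X y j l) W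

/-- Entrywise `Dv`. -/
noncomputable def DM (v : Cn n → Cn n) (X : Cn n → Matrix (Fin n) (Fin n) ℂ) (x : Cn n) :
    Matrix (Fin n) (Fin n) ℂ :=
  Matrix.of fun j l => Dv v (fun y => X y j l) x

/-- Entrywise `Dvb`. -/
noncomputable def DbM (v : Cn n → Cn n) (X : Cn n → Matrix (Fin n) (Fin n) ℂ) (x : Cn n) :
    Matrix (Fin n) (Fin n) ℂ :=
  Matrix.of fun j l => Dvb v (fun y => X y j l) x

theorem SM.mul {W : Set (Cn n)} {X Y : Cn n → Matrix (Fin n) (Fin n) ℂ} (hX : SM W X)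
    (hY : SM W Y) : SM W (fun y => X y * Y y) := by
  intro j l
  simp only [Matrix.mul_apply]
  exact ContDiffOn.sum fun m _ => (hX j m).mul (hY m l)

theorem SM.sub {W : Set (Cn n)} {X Y : Cn n → Matrix (Fin n) (Fin n) ℂ} (hX : SM W X)
    (hY : SM W Y) : SM W (fun y => X y - Y y) := by
  intro j l
  simp only [Matrix.sub_apply]
  exact (hX j l).sub (hY j l)

theorem SM.neg {W : Set (Cn n)} {X : Cn n → Matrix (Fin n) (Fin n) ℂ} (hX : SM W X) :
    SM W (fun y => - X y) := by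
  intro j l
  simp only [Matrix.neg_apply]
  exact (hX j l).neg

theorem SM.mc {W : Set (Cn n)} {X : Cn n → Matrix (Fin n) (Fin n) ℂ} (hX : SM W X) :
    SM W (fun y => Pool.Agent.Helper10.SP.mc (X y)) := by
  intro j l
  exact contDiffOn_conj (hX j l)

theorem SM.transpose {W : Set (Cn n)} {X : Cn n → Matrix (Fin n) (Fin n) ℂ} (hX : SM W X) :
    SM W (fun y => (X y)ᵀ) := by
  intro j l
  exact hX l j

theorem DM_mul (hWIRT : S_WIRT) {W : Set (Cn n)} (hW : IsOpen W) (v : Cn n → Cn n)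
    {X Y : Cn n → Matrix (Fin n) (Fin n) ℂ} (hX : SM W X) (hY : SM W Y) {x : Cn n}
    (hx : x ∈ W) : DM v (fun y => X y * Y y) x = DM v X x * Y x + X x * DM v Y x := by
  ext j l
  have h1 : DM v (fun y => X y * Y y) x j l = Dv v (fun y => ∑ m, X y j m * Y y m l) x := by
    simp only [DM, Matrix.of_apply, Matrix.mul_apply]
  rw [h1, Dv_sum hWIRT hW v _ (fun m => (hX j m).mul (hY m l)) hx, Matrix.add_apply,
    Matrix.mul_apply, Matrix.mul_apply, ← Finset.sum_add_distrib]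
  refine Finset.sum_congr rfl fun m _ => ?_
  rw [Dv_mul hWIRT hW v (hX j m) (hY m l) hx]
  simp only [DM, Matrix.of_apply]

theorem DbM_mul (hWIRT : S_WIRT) {W : Set (Cn n)} (hW : IsOpen W) (v : Cn n → Cn n)
    {X Y : Cn n → Matrix (Fin n) (Fin n) ℂ} (hX : SM W X) (hY : SM W Y) {x : Cn n}
    (hx : x ∈ W) : DbM v (fun y => X y * Y y) x = DbM v X x * Y x + X x * DbM v Y x := by
  ext j l
  have h1 : DbM v (fun y => X y * Y y) x j l = Dvb v (fun y => ∑ m, X y j m * Y y m l) x := by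
    simp only [DbM, Matrix.of_apply, Matrix.mul_apply]
  rw [h1, Dvb_sum hWIRT hW v _ (fun m => (hX j m).mul (hY m l)) hx, Matrix.add_apply,
    Matrix.mul_apply, Matrix.mul_apply, ← Finset.sum_add_distrib]
  refine Finset.sum_congr rfl fun m _ => ?_
  rw [Dvb_mul hWIRT hW v (hX j m) (hY m l) hx]
  simp only [DbM, Matrix.of_apply]

theorem Dv_neg (hWIRT : S_WIRT) {W : Set (Cn n)} (hW : IsOpen W) (v : Cn n → Cn n)
    {f : Cn n → ℂ} (hf : ContDiffOn ℝ ∞ f W) {x : Cn n} (hx : x ∈ W) :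
    Dv v (fun y => - f y) x = - Dv v f x := by
  have h1 := Dv_add hWIRT hW v hf hf.neg hx
  have h2 : Dv v (fun y => f y + - f y) x = 0 := by
    rw [show (fun y => f y + - f y) = fun _ => (0 : ℂ) by ext y; ring, Dv_zero]
  rw [h2] at h1
  linear_combination -h1

theorem Dvb_neg (hWIRT : S_WIRT) {W : Set (Cn n)} (hW : IsOpen W) (v : Cn n → Cn n)
    {f : Cn n → ℂ} (hf : ContDiffOn ℝ ∞ f W) {x : Cn n} (hx : x ∈ W) :
    Dvb v (fun y => - f y) x = - Dvb v f x := by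
  have h1 := Dvb_add hWIRT hW v hf hf.neg hx
  have h2 : Dvb v (fun y => f y + - f y) x = 0 := by
    rw [show (fun y => f y + - f y) = fun _ => (0 : ℂ) by ext y; ring, Dvb_zero]
  rw [h2] at h1
  linear_combination -h1

theorem DM_neg (hWIRT : S_WIRT) {W : Set (Cn n)} (hW : IsOpen W) (v : Cn n → Cn n)
    {X : Cn n → Matrix (Fin n) (Fin n) ℂ} (hX : SM W X) {x : Cn n}
    (hx : x ∈ W) : DM v (fun y => - X y) x = - DM v X x := by
  ext j l
  simp only [DM, Matrix.of_apply, Matrix.neg_apply]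
  exact Dv_neg hWIRT hW v (hX j l) hx

theorem DbM_sub (hWIRT : S_WIRT) {W : Set (Cn n)} (hW : IsOpen W) (v : Cn n → Cn n)
    {X Y : Cn n → Matrix (Fin n) (Fin n) ℂ} (hX : SM W X) (hY : SM W Y) {x : Cn n}
    (hx : x ∈ W) : DbM v (fun y => X y - Y y) x = DbM v X x - DbM v Y x := by
  ext j l
  simp only [DbM, Matrix.of_apply, Matrix.sub_apply]
  have h1 := Dvb_add hWIRT hW v (hX j l) (hY j l).neg hx
  have h2 := Dvb_neg hWIRT hW v (hY j l) hx
  simp only [sub_eq_add_neg]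
  rw [h1, h2]

theorem DM_mc (hWIRT : S_WIRT) {W : Set (Cn n)} (hW : IsOpen W) (v : Cn n → Cn n)
    {X : Cn n → Matrix (Fin n) (Fin n) ℂ} (hX : SM W X) {x : Cn n}
    (hx : x ∈ W) : DM v (fun y => mc (X y)) x = mc (DbM v X x) := by
  ext j l
  exact Dv_conj hWIRT hW v (hX j l) hx

theorem DbM_mc (hWIRT : S_WIRT) {W : Set (Cn n)} (hW : IsOpen W) (v : Cn n → Cn n)
    {X : Cn n → Matrix (Fin n) (Fin n) ℂ} (hX : SM W X) {x : Cn n}
    (hx : x ∈ W) : DbM v (fun y => mc (X y)) x = mc (DM v X x) := by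
  ext j l
  exact Dvb_conj hWIRT hW v (hX j l) hx

theorem Dv_trace (hWIRT : S_WIRT) {W : Set (Cn n)} (hW : IsOpen W) (v : Cn n → Cn n)
    {X : Cn n → Matrix (Fin n) (Fin n) ℂ} (hX : SM W X) {x : Cn n}
    (hx : x ∈ W) : Dv v (fun y => Matrix.trace (X y)) x = Matrix.trace (DM v X x) := by
  have h1 := Dv_sum hWIRT hW v Finset.univ (fun m => hX m m) hx
  exact h1

theorem Dvb_trace (hWIRT : S_WIRT) {W : Set (Cn n)} (hW : IsOpen W) (v : Cn n → Cn n)
    {X : Cn n → Matrix (Fin n) (Fin n) ℂ} (hX : SM W X) {x : Cn n}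
    (hx : x ∈ W) : Dvb v (fun y => Matrix.trace (X y)) x = Matrix.trace (DbM v X x) := by
  have h1 := Dvb_sum hWIRT hW v Finset.univ (fun m => hX m m) hx
  exact h1

theorem DM_congr {W : Set (Cn n)} (hW : IsOpen W) {X Y : Cn n → Matrix (Fin n) (Fin n) ℂ}
    (h : ∀ y ∈ W, X y = Y y) {x : Cn n} (hx : x ∈ W) (v : Cn n → Cn n) :
    DM v X x = DM v Y x := by
  ext j l
  exact Dv_congr hW (fun y hy => by rw [h y hy]) hx v

theorem mc_mul (X Y : Matrix (Fin n) (Fin n) ℂ) : mc (X * Y) = mc X * mc Y :=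
  Matrix.map_mul

theorem mc_mc (X : Matrix (Fin n) (Fin n) ℂ) : mc (mc X) = X := by
  ext j l
  exact Complex.conj_conj _

theorem mc_sub (X Y : Matrix (Fin n) (Fin n) ℂ) : mc (X - Y) = mc X - mc Y := by
  ext j l
  exact map_sub (starRingEnd ℂ) _ _

theorem mc_neg (X : Matrix (Fin n) (Fin n) ℂ) : mc (-X) = -mc X := by
  ext j l
  exact map_neg (starRingEnd ℂ) _

theorem mc_add (X Y : Matrix (Fin n) (Fin n) ℂ) : mc (X + Y) = mc X + mc Y := by
  ext j l
  exact map_add (starRingEnd ℂ) _ _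

theorem trace_mc (X : Matrix (Fin n) (Fin n) ℂ) :
    Matrix.trace (mc X) = conj (Matrix.trace X) := by
  simp only [Matrix.trace, Matrix.diag, map_sum]
  rfl

/-! ### The packet -/

theorem ddq (hWIRT : S_WIRT) (hDER : S_DER) : S_DDQ := by
  intro n i H W v hK
  have hW := hK.isOpen
  have hvs : ∀ j, ContDiffOn ℝ ∞ (fun y => v y j) W := by
    intro j
    exact (contDiff_apply ℝ ℂ j).comp_contDiffOn hK.smv
  have hcd : ∀ f : Cn n → ℂ, ContDiffOn ℝ ∞ f W → ∀ l, ContDiffOn ℝ ∞ (cd l f) W :=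
    fun f hf l => ((hWIRT W hW f f hf hf).1 l).1
  have hcdb : ∀ f : Cn n → ℂ, ContDiffOn ℝ ∞ f W → ∀ l, ContDiffOn ℝ ∞ (cdb l f) W :=
    fun f hf l => ((hWIRT W hW f f hf hf).1 l).2
  have hT : SM W (Tm v) := fun j l => hcdb _ (hvs j) l
  have hB : SM W (Bm v) := fun j l => hcd _ (hvs j) l
  have hDs : ∀ f : Cn n → ℂ, ContDiffOn ℝ ∞ f W → ContDiffOn ℝ ∞ (Dv v f) W := by
    intro f hf
    unfold Dv
    exact ContDiffOn.sum fun m _ => (hvs m).mul (hcd f hf m)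
  have hP : SM W (DM v (Tm v)) := fun j l => hDs _ (hT j l)
  -- the structure equations as matrix equations
  have e4 : ∀ y ∈ W, DbM v (Tm v) y = -(Tm v y * mc (Bm v y)) := by
    intro y hy
    ext j l
    exact (hDER i H W v hK y hy).2.2.2.1 j l
  have e5 : ∀ y ∈ W, DbM v (Bm v) y = -(Tm v y * mc (Tm v y)) := by
    intro y hy
    ext j l
    exact (hDER i H W v hK y hy).2.2.2.2.1 j l
  have e6 : ∀ y ∈ W, DM v (fun z => (H z)ᵀ) y = -((H y)ᵀ * Bm v y) := by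
    intro y hy
    ext k j
    have h := (hDER i H W v hK y hy).2.2.2.2.2.1 j k
    rw [Matrix.neg_apply, Matrix.mul_apply]
    change Dv v (fun z => H z j k) y = _
    rw [h]
    congr 1
    refine Finset.sum_congr rfl fun m _ => ?_
    rw [Matrix.transpose_apply]
    ring
  -- the matrix `P'`
  set P : Cn n → Matrix (Fin n) (Fin n) ℂ := DM v (Tm v) with hPdef
  set P' : Cn n → Matrix (Fin n) (Fin n) ℂ := fun y => P y - Bm v y * Tm v y with hP'def
  have hP' : SM W P' := hP.sub (hB.mul hT)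
  -- first derivative
  have hq : ∀ y ∈ W, Dvb v (qf v) y = Matrix.trace (Tm v y * mc (P' y)) := by
    intro y hy
    have h1 : Dvb v (qf v) y = Matrix.trace (DbM v (fun z => Tm v z * mc (Tm v z)) y) :=
      Dvb_trace hWIRT hW v (hT.mul hT.mc) hy
    rw [h1, DbM_mul hWIRT hW v hT hT.mc hy, DbM_mc hWIRT hW v hT hy, e4 y hy]
    congr 1
    change -(Tm v y * mc (Bm v y)) * mc (Tm v y) + Tm v y * mc (P y) =
      Tm v y * mc (P y - Bm v y * Tm v y)
    rw [mc_sub, mc_mul, mul_sub, neg_mul, mul_assoc]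
    abel
  -- the derivative of `P'`
  have hPb : ∀ y ∈ W, DbM v P' y = -(P' y * mc (Bm v y)) +
      (2 : ℂ) • (Tm v y * mc (Tm v y) * Tm v y) := by
    intro y hy
    have h1 : DbM v P y = -(P y * mc (Bm v y)) + Tm v y * mc (Tm v y) * Tm v y := by
      have h2 : DbM v P y = DM v (DbM v (Tm v)) y := by
        ext j l
        exact ((hDER i H W v hK y hy).2.2.1 (fun z => Tm v z j l) (hT j l)).symm
      rw [h2, DM_congr hW e4 hy v, DM_neg hWIRT hW v (hT.mul hB.mc) hy,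
        DM_mul hWIRT hW v hT hB.mc hy, DM_mc hWIRT hW v hB hy, e5 y hy, mc_neg, mc_mul, mc_mc]
      change -(P y * mc (Bm v y) + Tm v y * -(mc (Tm v y) * Tm v y)) = _
      rw [mul_neg, ← mul_assoc]
      abel
    have h3 : DbM v P' y = DbM v P y - DbM v (fun z => Bm v z * Tm v z) y :=
      DbM_sub hWIRT hW v hP (hB.mul hT) hy
    rw [h3, h1, DbM_mul hWIRT hW v hB hT hy, e4 y hy, e5 y hy]
    change _ = -((P y - Bm v y * Tm v y) * mc (Bm v y)) + _
    rw [sub_mul, two_smul, neg_mul, mul_neg, ← mul_assoc (Bm v y)]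
    abel
  intro x hx
  refine ⟨P' x, ?_, ?_, hq x hx, ?_, ?_⟩
  · intro l
    have h0 : ∀ y ∈ W, Tm v y i l = 0 := fun y hy =>
      ((hDER i H W v hK y hy).2.2.2.2.2.2 l).1
    have h1 : P x i l = 0 := by
      change Dv v (fun y => Tm v y i l) x = 0
      rw [Dv_congr hW h0 hx v, Dv_zero]
    have h2 : (Bm v x * Tm v x) i l = 0 := by
      rw [Matrix.mul_apply]
      refine Finset.sum_eq_zero fun m _ => ?_
      rw [((hDER i H W v hK x hx).2.2.2.2.2.2 m).2, zero_mul]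
    change P x i l - (Bm v x * Tm v x) i l = 0
    rw [h1, h2, sub_zero]
  · have hHs : SM W (fun y => (H y)ᵀ) := SM.transpose (fun j k => hK.smH j k)
    have h1 : DM v (fun y => (H y)ᵀ * Tm v y) x = (H x)ᵀ * P' x := by
      rw [DM_mul hWIRT hW v hHs hT hx, e6 x hx]
      change -((H x)ᵀ * Bm v x) * Tm v x + (H x)ᵀ * P x = (H x)ᵀ * (P x - Bm v x * Tm v x)
      rw [mul_sub, neg_mul, mul_assoc]
      abel
    rw [← h1]
    ext j l
    change Dv v (fun y => ((H y)ᵀ * Tm v y) l j) x = Dv v (fun y => ((H y)ᵀ * Tm v y) j l) x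
    refine Dv_congr hW (fun y hy => ?_) hx v
    exact (hDER i H W v hK y hy).1.apply j l
  · have hreal : ∀ y, conj (qf v y) = qf v y := by
      intro y
      unfold qf
      rw [← trace_mc, mc_mul, mc_mc, Matrix.trace_mul_comm]
    have hqs : ContDiffOn ℝ ∞ (qf v) W := by
      have h1 := hT.mul hT.mc
      unfold qf Matrix.trace
      exact ContDiffOn.sum fun m _ => h1 m m
    have h1 := Dv_conj hWIRT hW v hqs hx
    rw [← hq x hx, ← h1]
    congr 1
    ext y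
    exact (hreal y).symm
  · have h1 : Dv v (Dvb v (qf v)) x =
        Dv v (fun y => Matrix.trace (Tm v y * mc (P' y))) x := Dv_congr hW hq hx v
    rw [h1, Dv_trace hWIRT hW v (hT.mul hP'.mc) hx, DM_mul hWIRT hW v hT hP'.mc hx,
      DM_mc hWIRT hW v hP' hx, hPb x hx, mc_add, mc_neg, mc_mul, mc_mc]
    have h2 : mc ((2 : ℂ) • (Tm v x * mc (Tm v x) * Tm v x)) =
        (2 : ℂ) • (mc (Tm v x) * Tm v x * mc (Tm v x)) := by
      rw [two_smul, mc_add, mc_mul, mc_mul, mc_mc, ← two_smul ℂ]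
    rw [h2]
    change Matrix.trace (P x * mc (P' x) + Tm v x * (-(mc (P' x) * Bm v x) +
      (2 : ℂ) • (mc (Tm v x) * Tm v x * mc (Tm v x)))) = _
    have h3 : P x = P' x + Bm v x * Tm v x := by
      change P x = P x - Bm v x * Tm v x + Bm v x * Tm v x
      abel
    rw [h3, add_mul, mul_add, Matrix.trace_add, Matrix.trace_add, Matrix.trace_add, mul_neg,
      Matrix.trace_neg, Matrix.mul_smul, Matrix.trace_smul, smul_eq_mul,
      Matrix.trace_mul_comm (Tm v x) (mc (P' x) * Bm v x), mul_assoc (mc (P' x)),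
      Matrix.trace_mul_comm (mc (P' x)), ← mul_assoc (Tm v x) (mc (Tm v x) * Tm v x),
      ← mul_assoc (Tm v x) (mc (Tm v x)), ← mul_assoc]
    ring_nf

end Pool.Agent.Helper29.SP
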